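import Pool.Agent.Work.MP_43aaf1_gt.Twist

set_option autoImplicit false

open Topology Filter Set Pool.Agent.Work.MP_43aaf1_gt

namespace Pool.Agent.Results.MP_43aaf1_gt.Q1

/-- Every point of the circle `ℝ / πℤ` lies in the image of an open embedding of the line. -/
lemma circle_chart (f : AddCircle Real.pi) :
    ∃ e : ℝ → AddCircle Real.pi, IsOpenEmbedding e ∧ f ∈ range e := by
  have hpi := Real.pi_pos
  have hg : IsOpenEmbedding Real.arctan :=
    Real.tanPartialHomeomorph.symm.isOpenEmbedding rfl
  refine ⟨fun s => f + (Real.arctan s : AddCircle Real.pi), ?_, ⟨0, by simp⟩⟩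
  refine .of_continuous_injective_isOpenMap ?_ ?_ ?_
  · exact continuous_const.add ((AddCircle.continuous_mk' Real.pi).comp Real.continuous_arctan)
  · intro a b hab
    have h1 : ((Real.arctan a : ℝ) : AddCircle Real.pi) = (Real.arctan b : ℝ) :=
      add_left_cancel hab
    rw [QuotientAddGroup.eq, AddSubgroup.mem_zmultiples_iff] at h1
    obtain ⟨n, hn⟩ := h1
    rw [zsmul_eq_mul] at hn
    have ha1 := Real.neg_pi_div_two_lt_arctan a
    have ha2 := Real.arctan_lt_pi_div_two a
    have hb1 := Real.neg_pi_div_two_lt_arctan b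
    have hb2 := Real.arctan_lt_pi_div_two b
    have hn1 : (n : ℝ) < 1 := by
      by_contra h
      push Not at h
      nlinarith
    have hn2 : (-1 : ℝ) < n := by
      by_contra h
      push Not at h
      nlinarith
    have hn1' : n < 1 := by exact_mod_cast hn1
    have hn2' : -1 < n := by exact_mod_cast hn2
    have hn0 : n = 0 := by omega
    rw [hn0] at hn
    simp only [Int.cast_zero, zero_mul] at hn
    exact hg.injective (by linarith)
  · have h2 : IsOpenMap (fun s : ℝ => (s : AddCircle Real.pi)) := QuotientAddGroup.isOpenMap_coe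
    exact (isOpenMap_add_left f).comp (h2.comp hg.isOpenMap)

/-- There is a connected, locally Euclidean (of dimension `2`), homogeneous, non-Hausdorff space
in which, for every point `z`, the set of points that cannot be separated from `z` is
homeomorphic to the circle. -/
theorem result : ∃ (M : Type) (_ : TopologicalSpace M),
    ConnectedSpace M ∧
    (∀ x : M, ∃ U : Set M, IsOpen U ∧ x ∈ U ∧ Nonempty (U ≃ₜ EuclideanSpace ℝ (Fin 2))) ∧
    (∀ x y : M, ∃ h : M ≃ₜ M, h x = y) ∧
    ¬ T2Space M ∧
    (∀ z : M, Nonempty ({y : M | y ≠ z ∧ ∀ U V : Set M, IsOpen U → IsOpen V → y ∈ U → z ∈ V →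
      (U ∩ V).Nonempty} ≃ₜ Circle)) := by
  have hpi := Real.pi_pos
  have : Fact (0 < Real.pi) := ⟨hpi⟩
  have hgood := goodTwist_tw.map (QuotientAddGroup.mk' (AddSubgroup.zmultiples Real.pi))
    (AddCircle.continuous_mk' Real.pi) (QuotientAddGroup.mk'_surjective _)
  have : ConnectedSpace (AddCircle Real.pi) :=
    (QuotientAddGroup.mk'_surjective (AddSubgroup.zmultiples Real.pi)).connectedSpace
      (AddCircle.continuous_mk' Real.pi)
  refine ⟨DM (fun t => QuotientAddGroup.mk' (AddSubgroup.zmultiples Real.pi) (tw t)), instTop,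
    connected hgood, locally_euclidean hgood circle_chart, homogeneous hgood, not_t2 hgood, ?_⟩
  intro z
  obtain ⟨e⟩ := nh_homeo hgood z
  exact ⟨e.trans (AddCircle.homeomorphCircle hpi.ne')⟩

end Pool.Agent.Results.MP_43aaf1_gt.Q1
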