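import Pool.Agent.Work.MP_43aaf1_gt.Twist

set_option autoImplicit false

open Topology Filter Set Pool.Agent.Work.MP_43aaf1_gt

namespace Pool.Agent.Results.MP_43aaf1_gt.Q2

/-- There is a connected, locally Euclidean (of dimension `2`), homogeneous, non-Hausdorff space
in which, for every point `z`, the set of points that cannot be separated from `z` is
homeomorphic to the real line. -/
theorem result : ∃ (M : Type) (_ : TopologicalSpace M),
    ConnectedSpace M ∧
    (∀ x : M, ∃ U : Set M, IsOpen U ∧ x ∈ U ∧ Nonempty (U ≃ₜ EuclideanSpace ℝ (Fin 2))) ∧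
    (∀ x y : M, ∃ h : M ≃ₜ M, h x = y) ∧
    ¬ T2Space M ∧
    (∀ z : M, Nonempty ({y : M | y ≠ z ∧ ∀ U V : Set M, IsOpen U → IsOpen V → y ∈ U → z ∈ V →
      (U ∩ V).Nonempty} ≃ₜ ℝ)) :=
  ⟨DM tw, instTop, connected goodTwist_tw,
    locally_euclidean goodTwist_tw (fun f => ⟨id, IsOpenEmbedding.id, ⟨f, rfl⟩⟩),
    homogeneous goodTwist_tw, not_t2 goodTwist_tw, nh_homeo goodTwist_tw⟩

end Pool.Agent.Results.MP_43aaf1_gt.Q2
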